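import Pool.Agent.NAP.Final

/-!
A Banach space (over the reals or the complex numbers) on which every continuous 2-homogeneous scalar valued
polynomial attains its norm, while some bounded bilinear form on it does not attain its norm.
-/

namespace Pool.Agent.Results.MP_6aa5c2_an.NormAttaining

/-- the `n`-homogeneous polynomial `x ↦ A (x, ..., x)` attains its norm -/
def PolyAttains {𝕜 X Y : Type} [RCLike 𝕜] [NormedAddCommGroup X] [NormedSpace 𝕜 X]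
    [NormedAddCommGroup Y] [NormedSpace 𝕜 Y] {n : ℕ}
    (A : ContinuousMultilinearMap 𝕜 (fun _ : Fin n => X) Y) : Prop :=
  ∃ x : X, ‖x‖ = 1 ∧ ∀ y : X, ‖y‖ ≤ 1 → ‖A (fun _ => y)‖ ≤ ‖A (fun _ => x)‖

/-- the bounded `n`-linear operator `A` attains its norm -/
def MultAttains {𝕜 X Y : Type} [RCLike 𝕜] [NormedAddCommGroup X] [NormedSpace 𝕜 X]
    [NormedAddCommGroup Y] [NormedSpace 𝕜 Y] {n : ℕ}
    (A : ContinuousMultilinearMap 𝕜 (fun _ : Fin n => X) Y) : Prop :=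
  ∃ x : Fin n → X, (∀ i, ‖x i‖ = 1) ∧ ∀ y : Fin n → X, (∀ i, ‖y i‖ ≤ 1) → ‖A y‖ ≤ ‖A x‖

theorem result (𝕜 : Type) [RCLike 𝕜] :
    ∃ (X : Type) (_ : NormedAddCommGroup X) (_ : NormedSpace 𝕜 X) (_ : CompleteSpace X),
      (∀ A : ContinuousMultilinearMap 𝕜 (fun _ : Fin 2 => X) 𝕜, PolyAttains A) ∧
      ∃ A : ContinuousMultilinearMap 𝕜 (fun _ : Fin 2 => X) 𝕜, ¬ MultAttains A := by
  obtain ⟨X, i1, i2, i3, h1, h2, -⟩ := Pool.Agent.NAP.main 𝕜
  exact ⟨X, i1, i2, i3, h1, h2⟩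

end Pool.Agent.Results.MP_6aa5c2_an.NormAttaining
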